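import Mathlib
import Pool.Agent.MP_2cd596_an.H55.Upper

set_option autoImplicit false

namespace Pool.Agent.Results.MP_2cd596_an.Minkowski

open Filter Topology Pointwise TopologicalSpace Pool.Agent.MP_2cd596_an.H55

theorem result :
    ∃ a : ℕ → ℝ, Summable (fun i => |a i|) ∧
      ∀ᶠ K : NonemptyCompacts (Set.Icc (0 : ℝ) 1) in
          residual (NonemptyCompacts (Set.Icc (0 : ℝ) 1)),
        ∃ C : Set ℝ, IsCompact C ∧
          Tendsto (fun n : ℕ => Metric.hausdorffEDist
            (∑ i ∈ Finset.range (n + 1),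
              a i • (Subtype.val '' (K : Set (Set.Icc (0 : ℝ) 1)) : Set ℝ) ^ i) C)
            atTop (𝓝 0) ∧
          dimH C = 1 ∧ interior C = ∅ := by
  refine ⟨aa, aa_abs_summable, ?_⟩
  filter_upwards [two_points, null_volume] with K ⟨x, hx, y, hy, h0, hxy⟩ hK
  refine ⟨msum aa (Subtype.val '' (K : Set X)),
    msum_compact aa_abs_summable (K.isCompact.image continuous_subtype_val) (img_sub _),
    msum_limit aa_abs_summable (img_sub _) (K.nonempty.image _), ?_,
    MeasureTheory.Measure.interior_eq_empty_of_null hK⟩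
  apply le_antisymm
  · rw [← Real.dimH_univ]
    exact dimH_mono (Set.subset_univ _)
  · exact one_le_dimH ⟨x, hx, rfl⟩ ⟨y, hy, rfl⟩ h0 hxy y.2.2

end Pool.Agent.Results.MP_2cd596_an.Minkowski
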